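import Mathlib

namespace Pool.Agent.Results.MP_3dda3d_al.NonIso

/-- an `Ω`-algebra structure on a `k`-module -/
def Alg (k : Type) [CommRing k] (Ω : ℕ → Type) (A : Type) [AddCommGroup A] [Module k A] : Type :=
  ∀ n, Ω n → MultilinearMap k (fun _ : Fin n => A) A

/-- formal `Ω`-monomials -/
inductive Mon (Ω : ℕ → Type) : Type
  | var : ℕ → Mon Ω
  | op : (n : ℕ) → Ω n → (Fin n → Mon Ω) → Mon Ω

section
variable {k : Type} [CommRing k] {Ω : ℕ → Type} {A B : Type} [AddCommGroup A] [Module k A]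
  [AddCommGroup B] [Module k B]

def evalMon (S : Alg k Ω A) (s : ℕ → A) : Mon Ω → A
  | .var i => s i
  | .op n ω t => S n ω fun i => evalMon S s (t i)

noncomputable def eval (S : Alg k Ω A) (s : ℕ → A) (f : Mon Ω →₀ k) : A :=
  Finsupp.linearCombination k (evalMon S s) f

def Ids (S : Alg k Ω A) : Set (Mon Ω →₀ k) := {f | ∀ s, eval S s f = 0}

def IsSub (S : Alg k Ω A) (R : Submodule k A) : Prop :=
  ∀ n ω (a : Fin n → A), (∀ i, a i ∈ R) → S n ω a ∈ R

def IsIdealOf (S : Alg k Ω A) (R I : Submodule k A) : Prop :=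
  I ≤ R ∧ ∀ n ω (a : Fin n → A) j, (∀ i, a i ∈ R) → a j ∈ I → S n ω a ∈ I

/-- some identity common to all proper sections `R / I` fails in the algebra -/
def Critical (S : Alg k Ω A) : Prop :=
  ∃ f : Mon Ω →₀ k, f ∉ Ids S ∧ ∀ R I : Submodule k A, IsSub S R → IsIdealOf S R I →
    ¬ (R = ⊤ ∧ I = ⊥) → ∀ s : ℕ → A, (∀ i, s i ∈ R) → eval S s f ∈ I

def Iso (S : Alg k Ω A) (T : Alg k Ω B) : Prop :=
  ∃ e : A ≃ₗ[k] B, ∀ n ω (a : Fin n → A), e (S n ω a) = T n ω fun i => e (a i)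

/-- forget the operations outside the subsignature `P` -/
def reduct (P : ∀ n, Set (Ω n)) (S : Alg k Ω A) : Alg k (fun n => P n) A := fun n ω => S n ω.1

end

inductive Sig : ℕ → Type
  | c : Sig 0
  | mul : Sig 2

def P (n : ℕ) : Set (Sig n) := {_ω | n = 2}

variable {k : Type} [Field k]

def alg (ε : k) : Alg k Sig (k × k)
  | _, .c => MultilinearMap.constOfIsEmpty k _ (0, ε)
  | _, .mul => (LinearMap.inr k k k).compMultilinearMap
      ((MultilinearMap.mkPiAlgebra k (Fin 2) k).compLinearMap fun _ => LinearMap.fst k k k)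

lemma alg_c (ε : k) (a) : alg ε 0 .c a = (0, ε) := rfl

lemma alg_mul (ε : k) (a : Fin 2 → k × k) : alg ε 2 .mul a = (0, (a 0).1 * (a 1).1) := by
  simp [alg]

def C : Mon Sig := .op 0 .c Fin.elim0

lemma fst_eq (ε δ : k) (s) (m : Mon Sig) : (evalMon (alg ε) s m).1 = (evalMon (alg δ) s m).1 := by
  rcases m with i | ⟨n, ω, t⟩
  · rfl
  · cases ω <;> simp [evalMon, alg_c, alg_mul]

lemma ev_eq (ε δ : k) (s) (m : Mon Sig) (h : m ≠ C) :
    evalMon (alg ε) s m = evalMon (alg δ) s m := by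
  rcases m with i | ⟨n, ω, t⟩
  · rfl
  · cases ω
    · exact absurd (congrArg _ (Subsingleton.elim _ _)) h
    · simp only [evalMon, alg_mul, fst_eq ε δ]

lemma ev_zero (ε : k) (m : Mon Sig) (h : m ≠ C) : evalMon (alg ε) 0 m = 0 := by
  have h1 : ∀ m, (evalMon (alg ε) 0 m).1 = 0 := fun m => by
    rcases m with i | ⟨n, ω, t⟩
    · rfl
    · cases ω <;> simp [evalMon, alg_c, alg_mul]
  rcases m with i | ⟨n, ω, t⟩
  · rfl
  · cases ω
    · exact absurd (congrArg _ (Subsingleton.elim _ _)) h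
    · simp [evalMon, alg_mul, h1]

lemma sub (ε δ : k) (hε : ε ≠ 0) : Ids (alg ε) ⊆ Ids (alg δ) := by
  intro f hf s
  have h0 : f C = 0 := by
    have := hf 0
    rw [eval, Finsupp.linearCombination_apply, Finsupp.sum_eq_single C
      (fun m _ hm => by rw [ev_zero ε m hm, smul_zero]) (by simp)] at this
    simpa [C, evalMon, alg_c, hε] using this
  rw [← hf s, eval, eval, Finsupp.linearCombination_apply, Finsupp.linearCombination_apply]
  refine Finsupp.sum_congr fun m hm => ?_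
  rw [ev_eq δ ε s m]
  rintro rfl
  exact Finsupp.mem_support_iff.1 hm h0

lemma crit (ε : k) : Critical (reduct P (alg ε)) := by
  have ev : ∀ s, eval (reduct P (alg ε)) s
      (Finsupp.single (.op 2 ⟨.mul, rfl⟩ fun i => .var i) 1) = (0, (s 0).1 * (s 1).1) := by
    intro s; simp [eval, evalMon, reduct, alg_mul]
  refine ⟨Finsupp.single (.op 2 ⟨.mul, rfl⟩ fun i => .var i) 1, fun h => ?_, ?_⟩
  · have := h fun _ => (1, 0)
    rw [ev] at this
    simp at this
  · intro R I hR hI hne s hs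
    rw [ev]
    by_cases h0 : (s 0).1 = 0
    · simp [h0, Prod.mk_zero_zero]
    have hy : ((0, 1) : k × k) ∈ R := by
      have := R.smul_mem ((s 0).1 * (s 0).1)⁻¹ (hR 2 ⟨.mul, rfl⟩ (fun _ => s 0) fun _ => hs 0)
      simp only [reduct, alg_mul, Prod.smul_mk, smul_eq_mul, mul_zero] at this
      rwa [inv_mul_cancel₀ (mul_ne_zero h0 h0)] at this
    have hT : R = ⊤ := by
      rw [eq_top_iff]
      intro x _
      have := R.add_mem (R.smul_mem (x.1 / (s 0).1) (hs 0))
        (R.smul_mem (x.2 - x.1 / (s 0).1 * (s 0).2) hy)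
      convert this using 1
      ext <;> simp [h0]
    obtain ⟨z, hz, hz0⟩ := (Submodule.ne_bot_iff I).1 fun h => hne ⟨hT, h⟩
    have hyI : ((0, 1) : k × k) ∈ I := by
      by_cases h1 : z.1 = 0
      · have h2 : z.2 ≠ 0 := fun h2 => hz0 (Prod.ext h1 h2)
        convert I.smul_mem z.2⁻¹ hz using 1
        ext <;> simp [h1, h2]
      · have := I.smul_mem (z.1 * z.1)⁻¹
          (hI.2 2 ⟨.mul, rfl⟩ (fun _ => z) 0 (fun _ => hI.1 hz) hz)
        simp only [reduct, alg_mul, Prod.smul_mk, smul_eq_mul, mul_zero] at this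
        rwa [inv_mul_cancel₀ (mul_ne_zero h1 h1)] at this
    simpa using I.smul_mem ((s 0).1 * (s 1).1) hyI

theorem result (k : Type) [Field k] (d : k) (hd : ¬ IsSquare d) :
    ∃ (Ω' : ℕ → Type) (Ω : ∀ n, Set (Ω' n)) (S T : Alg k Ω' (k × k)), (Ω 2).Nonempty ∧
      Iso (reduct Ω S) (reduct Ω T) ∧ Critical (reduct Ω S) ∧ Critical (reduct Ω T) ∧
      Ids S = Ids T ∧ ¬ Iso S T := by
  have hd0 : d ≠ 0 := fun h => hd (h ▸ IsSquare.zero)
  refine ⟨Sig, P, alg d, alg 1, ⟨.mul, rfl⟩, ⟨LinearEquiv.refl _ _, ?_⟩, crit _, crit _,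
    (sub _ _ hd0).antisymm (sub _ _ one_ne_zero), ?_⟩
  · rintro n ⟨ω, h⟩ a
    cases ω
    · exact absurd h (by simp [P])
    · simp [reduct, alg_mul]
  · rintro ⟨e, he⟩
    have h1 := he 0 .c Fin.elim0
    have h2 := he 2 .mul fun _ => (1, 0)
    rw [alg_c, alg_c, show ((0, d) : k × k) = d • (0, 1) by simp, map_smul] at h1
    rw [alg_mul, alg_mul, mul_one] at h2
    rw [h2] at h1
    have h3 : d * ((e (1, 0)).1 * (e (1, 0)).1) = 1 := congrArg Prod.snd h1
    have h4 : (e (1, 0)).1 ≠ 0 := fun h => by simp [h] at h3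
    exact hd ⟨(e (1, 0)).1⁻¹, by field_simp; linear_combination h3⟩

end Pool.Agent.Results.MP_3dda3d_al.NonIso
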